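import Pool.Agent.LE.StmtsQX
import Pool.Agent.Helper5_LQF.GOD

/-! # GOD: a point with `U < 1` is good -/

set_option autoImplicit false

open MeasureTheory ProbabilityTheory Function Filter

open scoped ENNReal BigOperators Topology NNReal ComplexOrder Matrix

noncomputable section

namespace Pool.Agent.LE.QX.H5

open Pool.Agent.Anderson hiding box mem_box card_box
open Pool.Agent.Loc Pool.Agent.Mob Pool.Agent.Helper54.Bal
  Pool.Agent.Helper96.EXP Pool.Agent.BED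
open Pool.Agent.LE.MN Pool.Agent.LE.CL Pool.Agent.LE.IR Pool.Agent.LE.QD Pool.Agent.LE.QF
open Pool.Agent.LE.QF.H5 (n2_nn n2_adj n2_tr unit_of entry_le qf_add qf_smul qf_one qf_P0 qf_Dl
  Dl_symm Dl_nonneg card_tor lt_one_of_pow_sum)

theorem inv_lower {X : Type} [Fintype X] [DecidableEq X] (S : Matrix X X ℝ) (e τ : ℝ)
    (hs : ∀ a b, S a b = S b a) (h0 : ∀ f, 0 ≤ qf S f) (he : 1 ≤ e) (hτ : 0 ≤ τ)
    (hu : IsUnit (e • (1 : Matrix X X ℝ) + τ • S).det) (f : X → ℝ) :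
    e⁻¹ * ∑ a, f a ^ 2 - τ * qf S f ≤ qf (e • (1 : Matrix X X ℝ) + τ • S)⁻¹ f := by
  obtain ⟨A, hA⟩ : ∃ A : Matrix X X ℝ, A = e • (1 : Matrix X X ℝ) + τ • S := ⟨_, rfl⟩
  rw [← hA] at hu ⊢
  have he0 : 0 < e := by linarith
  have hei : 0 < e⁻¹ := inv_pos.2 he0
  have hei1 : e⁻¹ ≤ 1 := inv_le_one_of_one_le₀ he
  have hq : ∀ v, qf A v = e * ∑ a, v a ^ 2 + τ * qf S v := fun v => by
    rw [hA, qf_add, qf_smul, qf_smul, qf_one]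
  have hAt : Aᵀ = A := by
    have hSt : Sᵀ = S := by
      ext a b
      exact hs b a
    rw [hA, Matrix.transpose_add, Matrix.transpose_smul, Matrix.transpose_smul,
      Matrix.transpose_one, hSt]
  obtain ⟨u, hud⟩ : ∃ u : X → ℝ, u = A⁻¹ *ᵥ f := ⟨_, rfl⟩
  have hAu : A *ᵥ u = f := by
    rw [hud, Matrix.mulVec_mulVec, Matrix.mul_nonsing_inv _ hu, Matrix.one_mulVec]
  obtain ⟨g, hg⟩ : ∃ g : X → ℝ, g = e⁻¹ • f := ⟨_, rfl⟩
  have h1 : 0 ≤ qf A (u - g) := by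
    rw [hq]
    have := h0 (u - g)
    have h2 : 0 ≤ ∑ a, (u - g) a ^ 2 := Finset.sum_nonneg fun a _ => sq_nonneg _
    positivity
  have hqd : ∀ (B : Matrix X X ℝ) v, qf B v = v ⬝ᵥ (B *ᵥ v) := fun B v => rfl
  have h2 : u ⬝ᵥ (A *ᵥ g) = f ⬝ᵥ g := by
    rw [Matrix.dotProduct_mulVec, ← Matrix.mulVec_transpose, hAt, hAu]
  have h3 : qf A (u - g) = f ⬝ᵥ u - 2 * (f ⬝ᵥ g) + qf A g := by
    rw [hqd, hqd, Matrix.mulVec_sub, sub_dotProduct, dotProduct_sub, dotProduct_sub, h2, hAu,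
      dotProduct_comm u f, dotProduct_comm g f]
    ring
  have h4 : f ⬝ᵥ g = e⁻¹ * ∑ a, f a ^ 2 := by
    rw [hg, dotProduct_smul, smul_eq_mul]
    congr 1
    exact Finset.sum_congr rfl fun a _ => by ring
  have h5 : qf A g = e⁻¹ * (∑ a, f a ^ 2) + τ * (e⁻¹ ^ 2 * qf S f) := by
    rw [hq]
    congr 1
    · rw [hg]
      simp only [Pi.smul_apply, smul_eq_mul, mul_pow, ← Finset.mul_sum]
      field_simp
    · rw [hqd, hqd, hg, Matrix.mulVec_smul, dotProduct_smul, smul_dotProduct, smul_eq_mul,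
        smul_eq_mul]
      ring
  have h6 : qf A⁻¹ f = f ⬝ᵥ u := by rw [hqd, hud]
  rw [h3, h4, h5] at h1
  rw [h6]
  have h7 : e⁻¹ ^ 2 ≤ 1 := pow_le_one₀ hei.le hei1
  have h8 : τ * (e⁻¹ ^ 2 * qf S f) ≤ τ * qf S f := by
    have h9 : e⁻¹ ^ 2 * qf S f ≤ 1 * qf S f := mul_le_mul_of_nonneg_right h7 (h0 f)
    rw [one_mul] at h9
    exact mul_le_mul_of_nonneg_left h9 hτ
  linarith

variable {d M : ℕ} [NeZero M]

theorem kp_pos {D : Dat d M} {c₁ C₁ c₀ : ℝ} (hc₁ : 0 < c₁) (hA : Adm D c₁ C₁ c₀)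
    {t : ℝ} (ht : t ≤ D.T) : D.η ≤ D.kp t := by
  have h1 : 0 ≤ (D.T - t) * D.m.im :=
    mul_nonneg (sub_nonneg.2 ht) (hc₁.le.trans hA.hm.1)
  simp only [Dat.kp]
  linarith

theorem mono {D : Dat d M} {c₁ C₁ c₀ c : ℝ} (hA : Adm D c₁ C₁ c) (h : c ≤ c₀) :
    Adm D c₁ C₁ c₀ :=
  ⟨hA.hT, hA.hm, hA.hfix, ⟨hA.hδ.1, hA.hδ.2.1, hA.hδ.2.2.trans h⟩,
    ⟨hA.hk.1, hA.hk.2.1.trans h, hA.hk.2.2⟩, hA.he, hA.hj, hA.h0, hA.hN,
    hA.hY, hA.hL, hA.hS, hA.hϖ, hA.hW⟩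

theorem god (hN : NnuStmt) (hR : RsjStmt) (hC : GdcStmt) (hT : ThbStmt) (hW : WabStmt) :
    GodStmt := by
  intro c₁ C₁ hc₁ hC₁
  obtain ⟨c', C', hc'0, hc'2, hC'1, hgdc⟩ := hC c₁ C₁ hc₁ hC₁
  have hc1i : 0 < 1 / c₁ := by positivity
  obtain ⟨C₀, hC₀⟩ : ∃ C₀ : ℝ, C₀ = C' + C₁ + 1 / c₁ + 2 := ⟨_, rfl⟩
  have hC₀1 : 1 ≤ C₀ := by rw [hC₀]; linarith
  obtain ⟨c₀, hc₀⟩ : ∃ c₀ : ℝ, c₀ = min c' (1 / (2 * C₀)) := ⟨_, rfl⟩
  have hc₀0 : 0 < c₀ := by rw [hc₀]; positivity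
  have hc₀c : c₀ ≤ c' := hc₀ ▸ min_le_left _ _
  have hc₀C : C₀ * c₀ ≤ 1 / 2 := by
    have h1 : c₀ ≤ 1 / (2 * C₀) := hc₀ ▸ min_le_right _ _
    rw [le_div_iff₀ (by positivity)] at h1
    linarith
  refine ⟨c₀, C₀, hc₀0, hc₀c.trans hc'2, hC₀1, ?_⟩
  intro d M _ D q hA hq0 hqT hU
  have hkp := kp_pos hc₁ hA hqT
  have hη := hA.hT.2.1
  have hkp0 : 0 < D.kp q.1 := lt_of_lt_of_le hη hkp
  obtain ⟨hu1, hu2, hu3, hu4, hu5⟩ := hN d M D c₁ C₁ c₀ q hc₁ hA hkp0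
  obtain ⟨hJ, hward, hG0s, hkt, hkw, -, -⟩ := hR d M D c₁ C₁ c₀ q hc₁ hA hkp0
  obtain ⟨-, hkpw⟩ := hkw hq0 hqT
  have hU' : D.U1 q + D.U2 q + D.U3 q + D.U4 q + D.U5 q < 1 := hU
  have hm0 : 0 < D.m.im := lt_of_lt_of_le hc₁ hA.hm.1
  have hδ0 := hA.hδ.1
  have hδc : D.δ ≤ c₀ := hA.hδ.2.1.trans hA.hδ.2.2
  have hε0 : 0 < D.ε₁ := lt_of_lt_of_le hδ0 hA.hδ.2.1
  have hε2 : D.ε₁ ≤ 1 / 2 := (hA.hδ.2.2.trans hc₀c).trans hc'2
  have hta0 : 0 < D.ta q.1 := div_pos hkp0 hm0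
  have hj1 : 1 ≤ D.j := by have := hA.hj.1; omega
  -- U1
  have hφ : ∀ a, ‖D.ph q a‖ ≤ D.δ := by
    intro a
    have h1 : ∑ a, (‖D.ph q a‖ ^ 2 / D.δ ^ 2) ^ D.j < 1 := by
      have : D.U1 q < 1 := by linarith
      exact this
    have h2 := lt_one_of_pow_sum _ _ (fun a => by positivity) h1 a
    rw [div_lt_one (by positivity)] at h2
    exact (abs_le_of_sq_le_sq' (by linarith : ‖D.ph q a‖ ^ 2 ≤ D.δ ^ 2) hδ0.le).2
  -- U2
  have hXh : ∀ a b, ‖D.Xh q a b‖ ≤ D.δ := by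
    intro a b
    have h1 : ∑ a, ∑ b, (‖D.Xh q a b‖ ^ 2 / D.δ ^ 2) ^ D.j < 1 := by
      have : D.U2 q < 1 := by linarith
      exact this
    have h3 : ∑ b, (‖D.Xh q a b‖ ^ 2 / D.δ ^ 2) ^ D.j < 1 := by
      refine lt_of_le_of_lt ?_ h1
      exact Finset.single_le_sum (f := fun a => ∑ b, (‖D.Xh q a b‖ ^ 2 / D.δ ^ 2) ^ D.j)
        (fun a _ => Finset.sum_nonneg fun b _ => by positivity) (Finset.mem_univ a)
    have h2 := lt_one_of_pow_sum _ _ (fun b => by positivity) h3 b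
    rw [div_lt_one (by positivity)] at h2
    exact (abs_le_of_sq_le_sq' (by linarith : ‖D.Xh q a b‖ ^ 2 ≤ D.δ ^ 2) hδ0.le).2
  -- U3
  have hY : ∀ u, n2 (D.Y q *ᵥ u) ≤ D.ε₁ ^ 2 * n2 u := by
    have h1 : (Matrix.trace ((D.Y q * (D.Y q)ᴴ) ^ D.j)).re / D.ε₁ ^ (2 * D.j) < 1 := by
      have : D.U3 q < 1 := by linarith
      exact this
    rw [div_lt_one (by positivity)] at h1
    exact n2_tr _ _ _ hε0.le hj1 h1.le
  have hunit : IsUnit (1 - D.Y q).det := unit_of _ _ hε0.le (by linarith) hY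
  have hYd : D.Y q = ((D.ta q.1 : ℝ) : ℂ) • BB (D.G q) := rfl
  have hmu : ∀ a, D.mu q a = D.ph q a - D.ta q.1 * (BB (D.G q) *ᵥ D.ph q) a := by
    intro a
    have h1 : (1 - D.Y q) *ᵥ D.ph q = D.mu q := by
      simp only [Dat.ph, Dat.Th]
      rw [Matrix.mulVec_mulVec, Matrix.mul_nonsing_inv _ hunit, Matrix.one_mulVec]
    rw [← h1, Matrix.sub_mulVec, Matrix.one_mulVec, hYd, Matrix.smul_mulVec]
    rfl
  -- GDC
  have hg := hgdc (Tor d M) (D.G q) D.G0 (D.ph q) D.m D.nr (D.kp q.1) (D.ta q.1) D.δ D.N hkp0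
    (hkpw.trans hA.hT.2.2.1) hkt hA.hm.1 hA.hm.2 hδ0.le (hδc.trans hc₀c) hA.hj.2.2.2.1 hJ.hs hG0s
    hward hmu hφ hXh hA.h0 (fun a b => by simp [Dat.nr]) hA.hN
  have hC'C : C' ≤ C₀ := by rw [hC₀]; linarith
  have hCd : C₀ * D.δ ≤ 1 / 2 := by
    have h1 : C₀ * D.δ ≤ C₀ * c₀ := mul_le_mul_of_nonneg_left hδc (by linarith)
    linarith
  have hG := Pool.Agent.LE.QF.H5.GdM.mono hg hC'C hCd
  -- rows
  have hrow : ∀ a, D.ta q.1 * ∑ b, ‖D.G q a b‖ ^ 2 ≤ 1 + C' * D.δ := by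
    intro a
    have := (abs_le.1 (hg.hk a)).2
    linarith
  have hYrow : ∀ a, ∑ b, ‖D.Y q a b‖ ≤ 1 + C' * D.δ := by
    intro a
    refine le_trans (le_of_eq ?_) (hrow a)
    rw [Finset.mul_sum]
    refine Finset.sum_congr rfl fun b _ => ?_
    rw [hYd, Matrix.smul_apply, smul_eq_mul, norm_mul, Complex.norm_real, Real.norm_eq_abs,
      abs_of_pos hta0, QF.BB, norm_pow]
  have hpow : (1 + C' * D.δ) ^ D.k ≤ 2 := by
    have h0 : 0 ≤ C' * D.δ := by positivity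
    have h1 : (1 + C' * D.δ) ^ D.k ≤ Real.exp (C' * D.δ) ^ D.k :=
      pow_le_pow_left₀ (by linarith) (by linarith [Real.add_one_le_exp (C' * D.δ)]) D.k
    rw [← Real.exp_nat_mul] at h1
    have h2 : (D.k : ℝ) * (C' * D.δ) ≤ Real.log 2 := by
      have h3 : (D.k : ℝ) * D.δ ≤ c₀ := hA.hk.2.1
      have h4 : C' * ((D.k : ℝ) * D.δ) ≤ C₀ * c₀ :=
        mul_le_mul hC'C h3 (by positivity) (by linarith)
      have h6 := Real.log_two_gt_d9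
      have h7 : (D.k : ℝ) * (C' * D.δ) = C' * ((D.k : ℝ) * D.δ) := by ring
      linarith
    calc (1 + C' * D.δ) ^ D.k ≤ Real.exp (D.k * (C' * D.δ)) := h1
      _ ≤ Real.exp (Real.log 2) := Real.exp_le_exp.2 h2
      _ = 2 := Real.exp_log (by norm_num)
  have hthb := hT (Tor d M) (D.Y q) D.ε₁ (C' * D.δ) D.k hε0.le hε2 (by positivity) hpow
    (by rw [card_tor]; exact hA.hk.2.2) hY hYrow
  -- U4
  have hLs0 : 0 < D.Ls q.1 := by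
    have hL0 : 0 < D.L₀ := by linarith [hA.hj.2.2.1]
    have hN0 : 0 < D.N := by linarith [hA.hj.2.2.2.1]
    have hp0 := hA.hj.2.2.2.2
    simp only [Dat.Ls]
    have h1 : 0 ≤ D.π₀ / D.kp q.1 := by positivity
    have h2 : 0 ≤ D.δ ^ 4 / D.kp q.1 := by positivity
    have h3 : 0 < D.N + D.π₀ / D.kp q.1 + D.δ ^ 4 / D.kp q.1 := by linarith
    positivity
  have hLa : ∀ a, D.La q a ≤ D.Ls q.1 := by
    intro a
    have h1 : ∑ a, (D.La q a / D.Ls q.1) ^ D.j < 1 := by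
      have : D.U4 q < 1 := by linarith
      exact this
    have h2 := lt_one_of_pow_sum _ _ (fun a => div_nonneg
      (Finset.sum_nonneg fun b _ => by positivity) hLs0.le) h1 a
    rw [div_lt_one hLs0] at h2
    exact h2.le
  -- W
  have hKs : ∀ a b, KK (D.G q) a b = KK (D.G q) b a := fun a b => by
    simp only [KK]; rw [hJ.hs a b]
  have hK0 : ∀ a b, 0 ≤ KK (D.G q) a b := fun a b => by simp only [KK]; positivity
  have hXd : D.X q = D.ta q.1 • Dl (KK (D.G q)) := rfl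
  have hX0 : ∀ f, 0 ≤ qf (D.X q) f := fun f => by
    rw [hXd, qf_smul]
    exact mul_nonneg hta0.le (Dl_nonneg _ hKs hK0 f)
  have hXs : ∀ a b, D.X q a b = D.X q b a := fun a b => by
    rw [hXd, Matrix.smul_apply, Matrix.smul_apply, Dl_symm _ hKs a b]
  have he0 : 0 < D.e₀ := by linarith [hA.he.1, hA.he.2.1]
  have hp1 : 1 ≤ D.p := by have := hA.hj.2.1; omega
  obtain ⟨hAu, -, -, hab, -⟩ := hW (Tor d M) (D.X q) D.S D.e₀ 1 (D.ta q.1) D.ϖ D.p hXs hX0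
    hA.hS.1 hA.hS.2.1 he0 one_pos hta0.le hA.hϖ.1 hp1
  have h5 : D.U5 q ≤ 1 := by linarith
  have hAf : ∀ f, qf (D.A q.1)⁻¹ f ≤
      qf (D.X q + P0 (Tor d M) + D.ϖ • (1 : Matrix (Tor d M) (Tor d M) ℝ)) f := (hab h5).2
  refine ⟨⟨rfl, rfl, hkp, hkpw, hta0, ?_, ?_⟩, hG, hunit, ?_, hφ, hmu, hLa, ?_, hAf, h5, ?_⟩
  · -- ta ≤ C₀ kp
    have h1 : D.ta q.1 * c₁ ≤ D.kp q.1 := by
      rw [hkt]
      exact mul_le_mul_of_nonneg_left hA.hm.1 hta0.le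
    have h2 : D.ta q.1 ≤ 1 / c₁ * D.kp q.1 := by
      rw [one_div, ← div_eq_inv_mul, le_div_iff₀ hc₁]
      exact h1
    have h3 : 1 / c₁ ≤ C₀ := by rw [hC₀]; linarith
    exact h2.trans (mul_le_mul_of_nonneg_right h3 hkp0.le)
  · have h3 : C₁ ≤ C₀ := by rw [hC₀]; linarith
    rw [hkt, mul_comm]
    exact mul_le_mul_of_nonneg_right (hA.hm.2.trans h3) hta0.le
  · intro a
    exact hthb.2 a
  · intro u
    have h1 := hY u
    rw [hYd, Matrix.smul_mulVec] at h1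
    have h2 : n2 (((D.ta q.1 : ℝ) : ℂ) • (BB (D.G q) *ᵥ u)) =
        D.ta q.1 ^ 2 * n2 (BB (D.G q) *ᵥ u) := by
      simp only [n2, Pi.smul_apply, smul_eq_mul, norm_mul, mul_pow, Complex.norm_real,
        Real.norm_eq_abs, sq_abs, Finset.mul_sum]
    rw [h2] at h1
    rw [div_pow, div_mul_eq_mul_div, le_div_iff₀ (by positivity)]
    linarith
  · intro f
    have h1 := hAf f
    have he1 : 1 ≤ D.e₀ := by linarith [hA.he.1, hA.he.2.1]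
    have h2 := inv_lower D.S D.e₀ (D.ta q.1) hA.hS.1 hA.hS.2.1 he1 hta0.le hAu f
    have h2' : D.e₀⁻¹ * ∑ a, f a ^ 2 - D.ta q.1 * qf D.S f ≤ qf (D.A q.1)⁻¹ f := h2
    have h1' := h2'.trans h1
    rw [qf_add, qf_add, qf_smul D.ϖ, qf_one, hXd, qf_smul (D.ta q.1) (Dl _), qf_Dl] at h1'
    have h3 : D.ta q.1 * (∑ a, (∑ b, KK (D.G q) a b) * f a ^ 2) ≤
        (1 + C' * D.δ) * ∑ b, f b ^ 2 := by
      rw [Finset.mul_sum, Finset.mul_sum]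
      refine Finset.sum_le_sum fun a _ => ?_
      rw [← mul_assoc]
      exact mul_le_mul_of_nonneg_right (hrow a) (sq_nonneg _)
    have hS2 : 0 ≤ ∑ b, f b ^ 2 := Finset.sum_nonneg fun b _ => sq_nonneg _
    have h4 : 1 - D.e₀⁻¹ ≤ D.e₀ - 1 := by
      have h6 : D.e₀⁻¹ * D.e₀ = 1 := inv_mul_cancel₀ he0.ne'
      have h7 : 0 < D.e₀⁻¹ := inv_pos.2 he0
      nlinarith [mul_nonneg h7.le (sq_nonneg (D.e₀ - 1))]
    have h5 : D.ϖ ≤ D.δ := hA.hϖ.2.1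
    have h6 : (C' + 1) * D.δ ≤ C₀ * D.δ :=
      mul_le_mul_of_nonneg_right (by rw [hC₀]; linarith) hδ0.le
    have h7 : D.ta q.1 * qf (KK (D.G q)) f ≤
        ((1 + C' * D.δ) + D.ϖ - D.e₀⁻¹) * ∑ b, f b ^ 2 + D.ta q.1 * qf D.S f +
          qf (P0 (Tor d M)) f := by
      linarith
    refine h7.trans ?_
    have h8 : ((1 + C' * D.δ) + D.ϖ - D.e₀⁻¹) * ∑ b, f b ^ 2 ≤
        (C₀ * D.δ + (D.e₀ - 1)) * ∑ b, f b ^ 2 :=
      mul_le_mul_of_nonneg_right (by linarith) hS2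
    linarith

end Pool.Agent.LE.QX.H5
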